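import Pool.Agent.Helper35.PQF.St

set_option autoImplicit false

open Filter Topology Matrix Set MeasureTheory
open scoped ENNReal ComplexOrder

namespace Helper79.PM

open Pool.Agent.Helper35.PM

lemma id1 (a b c d : ℂ) (h : a * d - b * c = 1) :
    (‖a‖ ^ 2 + ‖b‖ ^ 2) * (‖c‖ ^ 2 + ‖d‖ ^ 2) =
      ‖a * (starRingEnd ℂ) c + b * (starRingEnd ℂ) d‖ ^ 2 + 1 := by
  have h2 : ‖a * d - b * c‖ ^ 2 = 1 := by rw [h]; norm_num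
  simp only [← Complex.normSq_eq_norm_sq, Complex.normSq_apply, Complex.sub_re, Complex.sub_im,
    Complex.mul_re, Complex.mul_im, Complex.add_re, Complex.add_im, Complex.conj_re, Complex.conj_im] at *
  linear_combination h2

lemma id2 (a b c d a' b' c' d' : ℂ) :
    ‖d * a' - b * c'‖ ^ 2 + ‖d * b' - b * d'‖ ^ 2 + (‖-c * a' + a * c'‖ ^ 2 + ‖-c * b' + a * d'‖ ^ 2) =
      (‖c‖ ^ 2 + ‖d‖ ^ 2) * (‖a'‖ ^ 2 + ‖b'‖ ^ 2) + (‖a‖ ^ 2 + ‖b‖ ^ 2) * (‖c'‖ ^ 2 + ‖d'‖ ^ 2) -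
        2 * ((a * (starRingEnd ℂ) c + b * (starRingEnd ℂ) d) *
          (starRingEnd ℂ) (a' * (starRingEnd ℂ) c' + b' * (starRingEnd ℂ) d')).re := by
  simp only [← Complex.normSq_eq_norm_sq, Complex.normSq_apply, Complex.sub_re, Complex.sub_im, Complex.neg_re,
    Complex.neg_im, map_add, map_mul, Complex.conj_conj,
    Complex.mul_re, Complex.mul_im, Complex.add_re, Complex.add_im, Complex.conj_re, Complex.conj_im]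
  ring

lemma id3 (q q' : ℂ) (t t' : ℝ) :
    ‖q * (t : ℂ) - q' * (t' : ℂ)‖ ^ 2 =
      t ^ 2 * ‖q‖ ^ 2 + t' ^ 2 * ‖q'‖ ^ 2 - 2 * t * t' * (q * (starRingEnd ℂ) q').re := by
  simp only [← Complex.normSq_eq_norm_sq, Complex.normSq_apply, Complex.sub_re, Complex.sub_im,
    Complex.mul_re, Complex.mul_im, Complex.conj_re, Complex.conj_im, Complex.ofReal_re, Complex.ofReal_im]
  ring

lemma hs_eq (A : Mat) : hs A = ‖A 0 0‖ ^ 2 + ‖A 0 1‖ ^ 2 + (‖A 1 0‖ ^ 2 + ‖A 1 1‖ ^ 2) := by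
  unfold hs
  simp [Fin.sum_univ_two]

lemma rpos (A : SL) : 0 < ‖(A : Mat) 1 0‖ ^ 2 + ‖(A : Mat) 1 1‖ ^ 2 := by
  have hd : (A : Mat) 0 0 * (A : Mat) 1 1 - (A : Mat) 0 1 * (A : Mat) 1 0 = 1 := by
    rw [← Matrix.det_fin_two]; exact A.2
  have h := id1 _ _ _ _ hd
  by_contra hn
  have h0 : ‖(A : Mat) 1 0‖ ^ 2 + ‖(A : Mat) 1 1‖ ^ 2 = 0 := le_antisymm (not_lt.mp hn) (by positivity)
  rw [h0, mul_zero] at h
  have : 0 ≤ ‖(A : Mat) 0 0 * (starRingEnd ℂ) ((A : Mat) 1 0) + (A : Mat) 0 1 * (starRingEnd ℂ) ((A : Mat) 1 1)‖ ^ 2 := by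
    positivity
  linarith

lemma inv_mul_entries (A B : SL) :
    ((A⁻¹ * B : SL) : Mat) 0 0 = (A : Mat) 1 1 * (B : Mat) 0 0 - (A : Mat) 0 1 * (B : Mat) 1 0 ∧
    ((A⁻¹ * B : SL) : Mat) 0 1 = (A : Mat) 1 1 * (B : Mat) 0 1 - (A : Mat) 0 1 * (B : Mat) 1 1 ∧
    ((A⁻¹ * B : SL) : Mat) 1 0 = -(A : Mat) 1 0 * (B : Mat) 0 0 + (A : Mat) 0 0 * (B : Mat) 1 0 ∧
    ((A⁻¹ * B : SL) : Mat) 1 1 = -(A : Mat) 1 0 * (B : Mat) 0 1 + (A : Mat) 0 0 * (B : Mat) 1 1 := by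
  have h : ((A⁻¹ * B : SL) : Mat) = (A : Mat).adjugate * (B : Mat) := by
    rw [Matrix.SpecialLinearGroup.coe_mul, Matrix.SpecialLinearGroup.coe_inv]
  rw [h, Matrix.adjugate_fin_two]
  refine ⟨?_, ?_, ?_, ?_⟩ <;> simp [Matrix.mul_apply, Fin.sum_univ_two] <;> ring

theorem cn1 : St_CN1 := by
  intro A
  have hd : (A : Mat) 0 0 * (A : Mat) 1 1 - (A : Mat) 0 1 * (A : Mat) 1 0 = 1 := by
    rw [← Matrix.det_fin_two]; exact A.2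
  have h1 := id1 _ _ _ _ hd
  have hr := rpos A
  have htd : ht (A : Mat) = 1 / (‖(A : Mat) 1 0‖ ^ 2 + ‖(A : Mat) 1 1‖ ^ 2) := rfl
  have htr : ht (A : Mat) * (‖(A : Mat) 1 0‖ ^ 2 + ‖(A : Mat) 1 1‖ ^ 2) = 1 := by
    rw [htd]; field_simp
  refine ⟨by rw [htd]; positivity, ?_, ?_⟩
  · have hz2 : ‖hz (A : Mat)‖ ^ 2 = ht (A : Mat) ^ 2 *
        ‖(A : Mat) 0 0 * (starRingEnd ℂ) ((A : Mat) 1 0) + (A : Mat) 0 1 * (starRingEnd ℂ) ((A : Mat) 1 1)‖ ^ 2 := by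
      have := id3 ((A : Mat) 0 0 * (starRingEnd ℂ) ((A : Mat) 1 0) + (A : Mat) 0 1 * (starRingEnd ℂ) ((A : Mat) 1 1)) 0
        (ht (A : Mat)) 0
      simpa [hz] using this
    rw [hz2, hs_eq]
    generalize ht (A : Mat) = t at *
    generalize ‖(A : Mat) 0 0‖ ^ 2 = a at *
    generalize ‖(A : Mat) 0 1‖ ^ 2 = b at *
    generalize ‖(A : Mat) 1 0‖ ^ 2 + ‖(A : Mat) 1 1‖ ^ 2 = r at *
    generalize ‖(A : Mat) 0 0 * (starRingEnd ℂ) ((A : Mat) 1 0) + (A : Mat) 0 1 * (starRingEnd ℂ) ((A : Mat) 1 1)‖ ^ 2 = q at *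
    linear_combination (1 - t * (a + b)) * htr + t ^ 2 * h1
  · intro B
    have hdB : (B : Mat) 0 0 * (B : Mat) 1 1 - (B : Mat) 0 1 * (B : Mat) 1 0 = 1 := by
      rw [← Matrix.det_fin_two]; exact B.2
    have h1B := id1 _ _ _ _ hdB
    have hrB := rpos B
    have htdB : ht (B : Mat) = 1 / (‖(B : Mat) 1 0‖ ^ 2 + ‖(B : Mat) 1 1‖ ^ 2) := rfl
    have htrB : ht (B : Mat) * (‖(B : Mat) 1 0‖ ^ 2 + ‖(B : Mat) 1 1‖ ^ 2) = 1 := by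
      rw [htdB]; field_simp
    obtain ⟨e1, e2, e3, e4⟩ := inv_mul_entries A B
    have h3 := id3 ((A : Mat) 0 0 * (starRingEnd ℂ) ((A : Mat) 1 0) + (A : Mat) 0 1 * (starRingEnd ℂ) ((A : Mat) 1 1))
      ((B : Mat) 0 0 * (starRingEnd ℂ) ((B : Mat) 1 0) + (B : Mat) 0 1 * (starRingEnd ℂ) ((B : Mat) 1 1))
      (ht (A : Mat)) (ht (B : Mat))
    rw [hs_eq, e1, e2, e3, e4, id2]
    have e5 : ‖hz (A : Mat) - hz (B : Mat)‖ ^ 2 = _ := h3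
    rw [e5]
    generalize ht (A : Mat) = t at *
    generalize ht (B : Mat) = t' at *
    generalize ‖(A : Mat) 0 0‖ ^ 2 + ‖(A : Mat) 0 1‖ ^ 2 = p at *
    generalize ‖(A : Mat) 1 0‖ ^ 2 + ‖(A : Mat) 1 1‖ ^ 2 = r at *
    generalize ‖(B : Mat) 0 0‖ ^ 2 + ‖(B : Mat) 0 1‖ ^ 2 = p' at *
    generalize ‖(B : Mat) 1 0‖ ^ 2 + ‖(B : Mat) 1 1‖ ^ 2 = r' at *
    generalize ((A : Mat) 0 0 * (starRingEnd ℂ) ((A : Mat) 1 0) + (A : Mat) 0 1 * (starRingEnd ℂ) ((A : Mat) 1 1)) = q at *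
    generalize ((B : Mat) 0 0 * (starRingEnd ℂ) ((B : Mat) 1 0) + (B : Mat) 0 1 * (starRingEnd ℂ) ((B : Mat) 1 1)) = q' at *
    generalize (q * (starRingEnd ℂ) q').re = s at *
    linear_combination (p' * t') * htr + (p * t) * htrB + t' ^ 2 * h1B + t ^ 2 * h1
      - (p' * t') * htrB - (p * t) * htr

end Helper79.PM
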